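import Pool.Agent.Helper77.DS.Kos

/-!
Finite level and support in the Segre variety (MP_b07a0a, DS-14).
-/

namespace Pool.Agent.Helper77.DS

open MvPolynomial

noncomputable section

/-- a two by two minor for a family with two factors -/
def mnr {V : Bool → Type} (u v : ∀ b, V b) : MvPolynomial (∀ b, V b) ℂ :=
  X u * X v - X (fun b => if b = true then v b else u b) *
    X (fun b => if b = true then u b else v b)

theorem mnr_lmap {V V' : Bool → Type} [∀ b, Finite (V' b)] (A : ∀ i, V' i → V i → ℂ)
    (u v : ∀ b, V b) :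
    DI.lmap A (mnr u v) ∈ Ideal.span (Set.range fun p : (∀ b, V' b) × (∀ b, V' b) =>
      mnr p.1 p.2) := by
  classical
  have := fun b => Fintype.ofFinite (V' b)
  have hl : ∀ w : ∀ b, V b, DI.lmap A (X w) =
      ∑ β : ∀ b, V' b, C (A true (β true) (w true) * A false (β false) (w false)) * X β := by
    intro w
    unfold DI.lmap
    rw [aeval_X, finsum_eq_sum_of_fintype]
    refine Finset.sum_congr rfl fun β _ => ?_
    rw [finprod_eq_prod_of_fintype, Fintype.prod_bool]
  have hprod : ∀ w w' : ∀ b, V b, DI.lmap A (X w) * DI.lmap A (X w') =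
      ∑ p : (∀ b, V' b) × (∀ b, V' b),
        C (A true (p.1 true) (w true) * A false (p.1 false) (w false) *
          (A true (p.2 true) (w' true) * A false (p.2 false) (w' false))) * (X p.1 * X p.2) := by
    intro w w'
    rw [hl, hl, Finset.sum_mul_sum, ← Finset.univ_product_univ, Finset.sum_product]
    refine Finset.sum_congr rfl fun β _ => Finset.sum_congr rfl fun γ _ => ?_
    simp only [C_mul]
    ring
  -- the exchange of the factor `true`
  let e : (∀ b, V' b) × (∀ b, V' b) ≃ (∀ b, V' b) × (∀ b, V' b) :=
    { toFun := fun p => (fun b => if b = true then p.2 b else p.1 b,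
        fun b => if b = true then p.1 b else p.2 b)
      invFun := fun p => (fun b => if b = true then p.2 b else p.1 b,
        fun b => if b = true then p.1 b else p.2 b)
      left_inv := by
        rintro ⟨a, b⟩
        ext c <;> cases c <;> simp
      right_inv := by
        rintro ⟨a, b⟩
        ext c <;> cases c <;> simp }
  unfold mnr
  rw [map_sub, map_mul, map_mul, hprod, hprod, ← Equiv.sum_comp e, ← Finset.sum_sub_distrib]
  refine Ideal.sum_mem _ fun p _ => ?_
  have : C (A true ((e p).1 true) (u true) * A false ((e p).1 false) (u false) *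
          (A true ((e p).2 true) (v true) * A false ((e p).2 false) (v false))) *
            (X (e p).1 * X (e p).2) -
      C (A true (p.1 true) ((fun b => if b = true then v b else u b : ∀ b, V b) true) *
        A false (p.1 false) ((fun b => if b = true then v b else u b : ∀ b, V b) false) *
          (A true (p.2 true) ((fun b => if b = true then u b else v b : ∀ b, V b) true) *
            A false (p.2 false) ((fun b => if b = true then u b else v b : ∀ b, V b) false))) *
            (X p.1 * X p.2) =
      (-C (A true (p.1 true) (v true) * A false (p.1 false) (u false) *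
          (A true (p.2 true) (u true) * A false (p.2 false) (v false)))) * mnr p.1 p.2 := by
    simp only [e, mnr, Equiv.coe_fn_mk, if_true, Bool.false_eq_true, if_false]
    simp only [C_mul]
    ring
  rw [this]
  exact Ideal.mul_mem_left _ _ (Ideal.subset_span ⟨p, rfl⟩)

theorem mnr_radical (I : DI.DeltaIdeal) (d : ℕ) (hs : SegreSupport I) :
    Ideal.span (Set.range fun p : (Bool → Fin d) × (Bool → Fin d) =>
      mnr (V := fun _ => Fin d) p.1 p.2) ≤ (I.ideal Bool (fun _ => Fin d)).radical := by
  rw [← vanishingIdeal_zeroLocus_eq_radical (K := ℂ), Ideal.span_le]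
  rintro _ ⟨⟨u, v⟩, rfl⟩
  rw [SetLike.mem_coe, mem_vanishingIdeal_iff]
  intro z hz
  obtain ⟨a, ha⟩ := hs Bool (fun _ => Fin d) z (fun f hf => by
    have := hz f hf
    simpa [aeval_eq_eval] using this)
  have ha' : ∀ α : Bool → Fin d, z α = a true (α true) * a false (α false) := by
    intro α
    rw [ha, finprod_eq_prod_of_fintype, Fintype.prod_bool]
  simp only [mnr, map_sub, map_mul, aeval_X, ha', if_true, Bool.false_eq_true, if_false]
  ring

theorem mnr_prod_mem (I : DI.DeltaIdeal) (d : ℕ) (hl : HasLevel I d) (hs : SegreSupport I) :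
    ∃ m : ℕ, ∀ (V : Bool → Type) [∀ b, Finite (V b)] (u v : Fin m → ∀ b, V b),
      ∏ s, mnr (u s) (v s) ∈ I.ideal Bool V := by
  obtain ⟨m, hm⟩ := Ideal.exists_pow_le_of_le_radical_of_fg (mnr_radical I d hs)
    ((Submodule.fg_def.2 ⟨_, Set.finite_range _, rfl⟩))
  refine ⟨m, fun V _ u v => ?_⟩
  refine hl Bool V _ fun A => ?_
  rw [map_prod]
  apply hm
  have := Ideal.prod_mem_prod (ι := Fin m) (s := Finset.univ)
    (I := fun _ => Ideal.span (Set.range fun p : (Bool → Fin d) × (Bool → Fin d) =>
      mnr (V := fun _ => Fin d) p.1 p.2))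
    (x := fun s => DI.lmap (V' := fun _ => Fin d) A (mnr (u s) (v s)))
    (fun s _ => mnr_lmap (V' := fun _ => Fin d) A (u s) (v s))
  rwa [Finset.prod_const, Finset.card_univ, Fintype.card_fin] at this

/-- DS-14 -/
theorem flat_of_level (I : DI.DeltaIdeal) (d : ℕ) (hl : HasLevel I d) (hs : SegreSupport I) :
    ∃ m : ℕ, ∀ (n e : ℕ) (C : Finset (Fin (n + 1))) (u v : Fin m → Fin (n + 1) → Fin e),
      ∏ s, (X (u s) * X (v s) -
        X (C.piecewise (v s) (u s)) * X (C.piecewise (u s) (v s))) ∈
          I.ideal (Fin (n + 1)) (fun _ => Fin e) := by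
  classical
  obtain ⟨m, hm⟩ := mnr_prod_mem I d hl hs
  refine ⟨m + 1, fun n e C u v => ?_⟩
  by_cases h0 : C = ∅
  · subst h0
    rw [Fin.prod_univ_succ]
    have : (X (u 0) * X (v 0) - X ((∅ : Finset (Fin (n + 1))).piecewise (v 0) (u 0)) *
        X ((∅ : Finset (Fin (n + 1))).piecewise (u 0) (v 0)) :
          MvPolynomial (Fin (n + 1) → Fin e) ℂ) = 0 := by
      rw [Finset.piecewise_empty, Finset.piecewise_empty, sub_self]
    rw [this, zero_mul]
    exact Ideal.zero_mem _
  by_cases h1 : C = Finset.univ
  · subst h1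
    rw [Fin.prod_univ_succ]
    have : (X (u 0) * X (v 0) - X ((Finset.univ : Finset (Fin (n + 1))).piecewise (v 0) (u 0)) *
        X ((Finset.univ : Finset (Fin (n + 1))).piecewise (u 0) (v 0)) :
          MvPolynomial (Fin (n + 1) → Fin e) ℂ) = 0 := by
      rw [Finset.piecewise_univ, Finset.piecewise_univ, mul_comm, sub_self]
    rw [this, zero_mul]
    exact Ideal.zero_mem _
  rw [Fin.prod_univ_castSucc]
  refine Ideal.mul_mem_right _ _ ?_
  -- group the factors along the indicator function of `C`
  have hπ : Function.Surjective fun j : Fin (n + 1) => decide (j ∈ C) := by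
    intro b
    cases b with
    | true =>
      obtain ⟨j, hj⟩ := Finset.nonempty_iff_ne_empty.2 h0
      exact ⟨j, by simpa using hj⟩
    | false =>
      obtain ⟨j, hj⟩ : ∃ j, j ∉ C := by
        by_contra hcon
        push Not at hcon
        exact h1 (Finset.eq_univ_iff_forall.2 hcon)
      exact ⟨j, by simpa using hj⟩
  have key := I.merge (Fin (n + 1)) Bool (fun j => decide (j ∈ C)) hπ (fun _ => Fin e) _
    (hm (fun b => ∀ _ : {j : Fin (n + 1) // decide (j ∈ C) = b}, Fin e)
      (fun s b j => u s.castSucc j) (fun s b j => v s.castSucc j))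
  rw [map_prod] at key
  convert key using 1
  refine Finset.prod_congr rfl fun s _ => ?_
  unfold mnr
  rw [map_sub, map_mul, map_mul, rename_X, rename_X, rename_X, rename_X]
  congr 2
  · congr 1
    funext j
    by_cases hj : j ∈ C <;> simp [hj]
  · congr 1
    funext j
    by_cases hj : j ∈ C <;> simp [hj]

end

end Pool.Agent.Helper77.DS
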